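import Pool.Agent.H324.RP.Final

/-!
# The rigid synchrony conjecture

Every rigid synchrony pattern of a hyperbolic periodic orbit of an admissible `C¹` vector field of a
coupled cell network is balanced.

The definitions `Network`, `InputIso`, `Ph`, `st`, `Admissible` are in
`Pool/Agent/H848R3/RI/Net.lean`, `IsFund` is in `Pool/Agent/H848R3/RI/Lin.lean`, and
`PeriodicOrbit`, `Hyperbolic` are in `Pool/Agent/H848R3/RI/Hyp.lean`.

The proof uses the theorem on rigid phase relations of the starting files (`Pool.Agent.H324.RP`,
handed in there for the rigid input conjecture) with the phase shift `0`.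
-/

set_option autoImplicit false

open Pool.Agent.H848R3.RI Pool.Agent.H324.RP

namespace Pool.Agent.Results.MP_e1010f_an.RigidSynchrony

/-- The synchrony pattern of the curve `x`: nodes `c` and `d` are synchronous if `x_c(t) = x_d(t)`
for all times `t`. -/
def Sync {N : Network} {V : N.SType → Type} (x : ℝ → Ph N V) (c d : N.Node) : Prop :=
  ∀ t, st (x t) c = st (x t) d

/-- The synchrony pattern of the `T`-periodic orbit `x` of the admissible field `f` is rigid: there
is `δ > 0` such that for every admissible `C¹` field `g` which is `δ`-close to `f` in the `C¹` sense,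
the nearby periodic orbit of `g` (every periodic orbit `y` of `g`, of period `T'`, `|T' - T| < δ`,
that is `δ`-close to `x` on `[0, T]`) satisfies `y_c = y_d` whenever `c` and `d` are synchronous on
`x`. -/
def Rigid {N : Network} {V : N.SType → Type} [∀ τ, NormedAddCommGroup (V τ)]
    [∀ τ, NormedSpace ℝ (V τ)] (f : Ph N V → Ph N V) (x : ℝ → Ph N V) (T : ℝ) : Prop :=
  ∃ δ > 0, ∀ g : Ph N V → Ph N V, Admissible g →
    (∀ z, ‖g z - f z‖ < δ ∧ ‖fderiv ℝ g z - fderiv ℝ f z‖ < δ) →
    ∀ (y : ℝ → Ph N V) (T' : ℝ), PeriodicOrbit g y T' → |T' - T| < δ →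
      (∀ t ∈ Set.Icc 0 T, ‖y t - x t‖ < δ) → ∀ c d, Sync x c d → Sync y c d

/-- A relation on the nodes is balanced if for related nodes `c`, `d` there is an input isomorphism
(`c` and `d` have equal type and `I(c) → I(d)` is a bijection that preserves the types of the arrows)
such that the tails of matched arrows are related. -/
def Balanced (N : Network) (R : N.Node → N.Node → Prop) : Prop :=
  ∀ c d, R c d → ∃ β : InputIso N c d, ∀ e : N.In c, R (N.tail e.1) (N.tail (β.toEquiv e).1)

/-- Smooth admissible maps are `C¹`. -/
theorem smAdm_contDiff {N : Network} {V : N.SType → Type} [∀ τ, NormedAddCommGroup (V τ)]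
    [∀ τ, NormedSpace ℝ (V τ)] {h : Ph N V → Ph N V} (hh : SmAdm h) : ContDiff ℝ 1 h := by
  obtain ⟨F, hF, hF2⟩ := hh
  rw [contDiff_pi]
  intro c
  have e : (fun z => h z c) = fun z => cst (V := V) (InputIso.refl c).spq
      (F c (tup V (InputIso.refl c) z)) := funext fun z => hF2 c c (InputIso.refl c) z
  rw [e]
  exact (cst (V := V) (InputIso.refl c).spq).contDiff.comp
    (((hF c).of_le (by exact_mod_cast le_top)).comp (tup V (InputIso.refl c)).contDiff)

/-- **The rigid synchrony conjecture**: for every network, every admissible `C¹` vector field `f`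
and every hyperbolic periodic orbit `x` of `x' = f(x)`, if the synchrony pattern of `x` is rigid,
then it is balanced. -/
theorem result (N : Network) (V : N.SType → Type) [∀ τ, NormedAddCommGroup (V τ)]
    [∀ τ, NormedSpace ℝ (V τ)] [∀ τ, FiniteDimensional ℝ (V τ)] [∀ τ, Nontrivial (V τ)]
    (f : Ph N V → Ph N V) (hf : Admissible f) (x : ℝ → Ph N V) (T : ℝ)
    (hx : PeriodicOrbit f x T) (hh : Hyperbolic f x T) (hr : Rigid f x T) :
    Balanced N (Sync x) := by
  classical
  have hp : PerOrb f x T := hx.perOrb hf.smooth
  obtain ⟨δ, hδ, hrig⟩ := hr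
  obtain ⟨R, hR1, hR2, hR3, -⟩ := rigid_phase hf hp (hh.nDeg hf.smooth hp) hδ 0
  -- the relation `R` is the synchrony pattern
  have hRS : ∀ c d, R c d ↔ Sync x c d := by
    intro c d
    constructor
    · intro h t
      have := hR2 c d h t
      simpa using this
    · intro h
      refine hR1 c d fun g x' T' hg hsm horb hT' hclose t => ?_
      have hadm : Admissible (fun z => f z + g z) :=
        ⟨hf.smooth.add (smAdm_contDiff hg), fun a b β z w h1 h2 => by
          obtain ⟨p, hp'⟩ := st_iff.1 (hf.comp a b β z w h1 h2)
          obtain ⟨q, hq'⟩ := st_iff.1 (hg.comp a b β z w h1 h2)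
          refine st_iff.2 ⟨p, ?_⟩
          change cst p (f z a + g z a) = f w b + g w b
          rw [map_add, hp', hq']⟩
      have h1 := hrig (fun z => f z + g z) hadm (fun z => ?_) x' T' horb.periodicOrbit hT' hclose
        c d h t
      · simpa using h1
      · have e1 : f z + g z - f z = g z := by abel
        have hdf : DifferentiableAt ℝ f z := hf.smooth.differentiable one_ne_zero z
        have hdg : DifferentiableAt ℝ g z := (smAdm_contDiff hg).differentiable one_ne_zero z
        have e2 : fderiv ℝ (fun z => f z + g z) z - fderiv ℝ f z = fderiv ℝ g z := by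
          rw [fderiv_fun_add hdf hdg]; abel
        change ‖f z + g z - f z‖ < δ ∧ ‖fderiv ℝ (fun z => f z + g z) z - fderiv ℝ f z‖ < δ
        rw [e1, e2]
        exact hsm z
  intro c d hcd
  obtain ⟨β, hβ⟩ := hR3 c d ((hRS c d).2 hcd)
  exact ⟨β, fun e => (hRS _ _).1 (hβ e)⟩

end Pool.Agent.Results.MP_e1010f_an.RigidSynchrony
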